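import Mathlib

namespace Pool.Agent.Results.MP_65a0e0_al.DyadicUpSpace

universe u v w

/-- `F`, with the map `ι : X → F`, is a free lattice on the set `X`: `F` is generated by the
elements `ι x`, and every map from `X` into any lattice `L` extends to a lattice homomorphism
`F → L`. -/
structure IsFreeLattice {X F : Type w} [Lattice F] (ι : X → F) : Prop where
  generated : ∀ S : Sublattice F, (∀ x, ι x ∈ S) → ∀ a, a ∈ S
  extends_map : ∀ (L : Type w) [Lattice L] (f : X → L), ∃ g : LatticeHom F L, ∀ x, g (ι x) = f x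

/-- The poset `P` embeds into a free lattice: for some set `X` there is an order embedding of `P`
into a free lattice on `X`. The sets `X` and `F` live in the universe `w`. -/
def EmbedsInFreeLattice (P : Type u) [PartialOrder P] : Prop :=
  ∃ (X F : Type w) (_ : Lattice F) (ι : X → F), IsFreeLattice ι ∧
    ∃ φ : P → F, ∀ p q : P, p ≤ q ↔ φ p ≤ φ q

/-- The space of up-sets of `P`: all monotone maps from `P` to the two element chain
`false < true`, with the topology of pointwise convergence (the subspace topology of the product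
`P → Bool`, where `Bool` is discrete). -/
abbrev UpSpace (P : Type u) [PartialOrder P] : Type u := {F : P → Bool // Monotone F}

/-- The space of up-sets of `P` is dyadic, that is, a continuous image of a Cantor cube
`I → Bool`. -/
def UpSpaceIsDyadic (P : Type u) [PartialOrder P] : Prop :=
  ∃ (I : Type w) (π : (I → Bool) → UpSpace P), Continuous π ∧ Function.Surjective π

/-- `P` is isomorphic to a family of clopen subsets of a Cantor cube, ordered by inclusion. -/
def IsClopenFamily (P : Type u) [PartialOrder P] : Prop :=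
  ∃ (I : Type w) (c : P → Set (I → Bool)), (∀ p, IsClopen (c p)) ∧
    ∀ p q : P, p ≤ q ↔ c p ⊆ c q

/-- The Freese Nation property of a poset `Q`. -/
def HasFN (Q : Type w) [PartialOrder Q] : Prop :=
  ∃ f : Q → Finset Q, ∀ p q : Q, p ≤ q → ∃ r, r ∈ f p ∧ r ∈ f q ∧ p ≤ r ∧ r ≤ q

/-- `P` embeds into a poset with the Freese Nation property. -/
def EmbedsInFN (P : Type u) [PartialOrder P] : Prop :=
  ∃ (Q : Type w) (_ : PartialOrder Q), HasFN Q ∧ ∃ φ : P → Q, ∀ p q : P, p ≤ q ↔ φ p ≤ φ q

/-! ### Lattice terms and the relation of Whitman -/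

/-- Lattice terms. -/
inductive Term (X : Type w) : Type w
  | var : X → Term X
  | sup : Term X → Term X → Term X
  | inf : Term X → Term X → Term X

variable {X : Type w}

/-- Cut free derivations of inequalities between lattice terms. -/
inductive W : Term X → Term X → Prop
  | var (x : X) : W (.var x) (.var x)
  | sup_le {s t r : Term X} : W s r → W t r → W (.sup s t) r
  | le_inf {s t r : Term X} : W r s → W r t → W r (.inf s t)
  | inf_le_left {s t r : Term X} : W s r → W (.inf s t) r
  | inf_le_right {s t r : Term X} : W t r → W (.inf s t) r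
  | le_sup_left {s t r : Term X} : W r s → W r (.sup s t)
  | le_sup_right {s t r : Term X} : W r t → W r (.sup s t)

theorem W.refl (t : Term X) : W t t := by
  induction t with
  | var x => exact .var x
  | sup a b iha ihb => exact .sup_le (.le_sup_left iha) (.le_sup_right ihb)
  | inf a b iha ihb => exact .le_inf (.inf_le_left iha) (.inf_le_right ihb)

theorem W.sup_inv {a b r s : Term X} (h : W s r) (hs : s = .sup a b) : W a r ∧ W b r := by
  induction h with
  | var x => cases hs
  | sup_le h1 h2 _ _ => cases hs; exact ⟨h1, h2⟩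
  | le_inf h1 h2 ih1 ih2 =>
    exact ⟨.le_inf (ih1 hs).1 (ih2 hs).1, .le_inf (ih1 hs).2 (ih2 hs).2⟩
  | inf_le_left h ih => cases hs
  | inf_le_right h ih => cases hs
  | le_sup_left h ih => exact ⟨.le_sup_left (ih hs).1, .le_sup_left (ih hs).2⟩
  | le_sup_right h ih => exact ⟨.le_sup_right (ih hs).1, .le_sup_right (ih hs).2⟩

theorem W.inf_inv {a b r s : Term X} (h : W r s) (hs : s = .inf a b) : W r a ∧ W r b := by
  induction h with
  | var x => cases hs
  | sup_le h1 h2 ih1 ih2 =>
    exact ⟨.sup_le (ih1 hs).1 (ih2 hs).1, .sup_le (ih1 hs).2 (ih2 hs).2⟩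
  | le_inf h1 h2 _ _ => cases hs; exact ⟨h1, h2⟩
  | inf_le_left h ih => exact ⟨.inf_le_left (ih hs).1, .inf_le_left (ih hs).2⟩
  | inf_le_right h ih => exact ⟨.inf_le_right (ih hs).1, .inf_le_right (ih hs).2⟩
  | le_sup_left h ih => cases hs
  | le_sup_right h ih => cases hs

theorem W.trans' (t : Term X) : ∀ s r : Term X, W s t → W t r → W s r := by
  induction t with
  | var x =>
    intro s r h1 h2
    generalize ht : Term.var x = t at h1
    induction h1 with
    | var y => cases ht; exact h2
    | sup_le _ _ ih1 ih2 => exact .sup_le (ih1 ht) (ih2 ht)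
    | le_inf _ _ _ _ => cases ht
    | inf_le_left _ ih => exact .inf_le_left (ih ht)
    | inf_le_right _ ih => exact .inf_le_right (ih ht)
    | le_sup_left _ _ => cases ht
    | le_sup_right _ _ => cases ht
  | sup a b iha ihb =>
    intro s r h1 h2
    generalize ht : Term.sup a b = t at h1
    induction h1 with
    | var y => cases ht
    | sup_le _ _ ih1 ih2 => exact .sup_le (ih1 ht) (ih2 ht)
    | le_inf _ _ _ _ => cases ht
    | inf_le_left _ ih => exact .inf_le_left (ih ht)
    | inf_le_right _ ih => exact .inf_le_right (ih ht)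
    | le_sup_left h _ => cases ht; exact iha _ _ h (h2.sup_inv rfl).1
    | le_sup_right h _ => cases ht; exact ihb _ _ h (h2.sup_inv rfl).2
  | inf a b iha ihb =>
    intro s r h1 h2
    generalize ht : Term.inf a b = t at h2
    induction h2 with
    | var y => cases ht
    | sup_le _ _ _ _ => cases ht
    | le_inf _ _ ih1 ih2 => exact .le_inf (ih1 ht) (ih2 ht)
    | inf_le_left h _ => cases ht; exact iha _ _ (h1.inf_inv rfl).1 h
    | inf_le_right h _ => cases ht; exact ihb _ _ (h1.inf_inv rfl).2 h
    | le_sup_left _ ih => exact .le_sup_left (ih ht)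
    | le_sup_right _ ih => exact .le_sup_right (ih ht)

theorem W.trans {s t r : Term X} (h1 : W s t) (h2 : W t r) : W s r := W.trans' t s r h1 h2

instance termPreorder : Preorder (Term X) where
  le := W
  le_refl := W.refl
  le_trans _ _ _ := W.trans

/-- The free lattice on `X`, as lattice terms modulo mutual inequality. -/
def FL (X : Type w) : Type w := Antisymmetrization (Term X) (· ≤ ·)

instance : PartialOrder (FL X) := inferInstanceAs (PartialOrder (Antisymmetrization (Term X) _))

/-- The class of a term. -/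
def cl (t : Term X) : FL X := toAntisymmetrization (· ≤ ·) t

theorem cl_le {s t : Term X} : cl s ≤ cl t ↔ W s t := Iff.rfl

theorem cl_surj (a : FL X) : ∃ t, cl t = a := by
  induction a using Quotient.inductionOn with
  | h t => exact ⟨t, rfl⟩

/-- A chosen term representing an element. -/
noncomputable def rep (a : FL X) : Term X := (cl_surj a).choose

theorem cl_rep (a : FL X) : cl (rep a) = a := (cl_surj a).choose_spec

theorem rep_le {a b : FL X} : W (rep a) (rep b) ↔ a ≤ b := by
  rw [← cl_le, cl_rep, cl_rep]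

theorem rep_cl_le (t : Term X) : W (rep (cl t)) t := by
  rw [← cl_le, cl_rep]

theorem le_rep_cl (t : Term X) : W t (rep (cl t)) := by
  rw [← cl_le, cl_rep]

noncomputable instance : Lattice (FL X) where
  sup a b := cl (.sup (rep a) (rep b))
  inf a b := cl (.inf (rep a) (rep b))
  le_sup_left a b := by
    rw [← rep_le]
    exact (W.le_sup_left (W.refl _)).trans (le_rep_cl _)
  le_sup_right a b := by
    rw [← rep_le]
    exact (W.le_sup_right (W.refl _)).trans (le_rep_cl _)
  sup_le a b c h1 h2 := by
    rw [← rep_le] at h1 h2 ⊢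
    exact (rep_cl_le _).trans (W.sup_le h1 h2)
  inf_le_left a b := by
    rw [← rep_le]
    exact (rep_cl_le _).trans (W.inf_le_left (W.refl _))
  inf_le_right a b := by
    rw [← rep_le]
    exact (rep_cl_le _).trans (W.inf_le_right (W.refl _))
  le_inf a b c h1 h2 := by
    rw [← rep_le] at h1 h2 ⊢
    exact (W.le_inf h1 h2).trans (le_rep_cl _)

theorem cl_sup (s t : Term X) : cl (.sup s t) = cl s ⊔ cl t := by
  apply le_antisymm
  · change cl _ ≤ cl (.sup (rep (cl s)) (rep (cl t)))
    exact cl_le.2 (W.sup_le (.le_sup_left (le_rep_cl s)) (.le_sup_right (le_rep_cl t)))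
  · apply sup_le
    · exact cl_le.2 (.le_sup_left (W.refl _))
    · exact cl_le.2 (.le_sup_right (W.refl _))

theorem cl_inf (s t : Term X) : cl (.inf s t) = cl s ⊓ cl t := by
  apply le_antisymm
  · apply le_inf
    · exact cl_le.2 (.inf_le_left (W.refl _))
    · exact cl_le.2 (.inf_le_right (W.refl _))
  · change cl (.inf (rep (cl s)) (rep (cl t))) ≤ cl _
    exact cl_le.2 (W.le_inf (.inf_le_left (rep_cl_le s)) (.inf_le_right (rep_cl_le t)))

/-- Evaluation of terms. -/
def ev {L : Type v} [Lattice L] (f : X → L) : Term X → L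
  | .var x => f x
  | .sup s t => ev f s ⊔ ev f t
  | .inf s t => ev f s ⊓ ev f t

theorem ev_mono {L : Type v} [Lattice L] (f : X → L) {s t : Term X} (h : W s t) :
    ev f s ≤ ev f t := by
  induction h with
  | var x => exact le_rfl
  | sup_le _ _ h1 h2 => exact _root_.sup_le h1 h2
  | le_inf _ _ h1 h2 => exact _root_.le_inf h1 h2
  | inf_le_left _ h => exact _root_.inf_le_left.trans h
  | inf_le_right _ h => exact _root_.inf_le_right.trans h
  | le_sup_left _ h => exact h.trans _root_.le_sup_left
  | le_sup_right _ h => exact h.trans _root_.le_sup_right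

theorem ev_rep {L : Type v} [Lattice L] (f : X → L) (t : Term X) : ev f (rep (cl t)) = ev f t :=
  le_antisymm (ev_mono f (rep_cl_le t)) (ev_mono f (le_rep_cl t))

/-- The extension of a map to a homomorphism. -/
noncomputable def lift {L : Type v} [Lattice L] (f : X → L) : LatticeHom (FL X) L where
  toFun a := ev f (rep a)
  map_sup' a b := by
    change ev f (rep (cl (.sup (rep a) (rep b)))) = _
    rw [ev_rep]; rfl
  map_inf' a b := by
    change ev f (rep (cl (.inf (rep a) (rep b)))) = _
    rw [ev_rep]; rfl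

theorem lift_var {L : Type v} [Lattice L] (f : X → L) (x : X) : lift f (cl (.var x)) = f x := by
  change ev f (rep (cl (.var x))) = _
  rw [ev_rep]; rfl

theorem isFree_FL (X : Type w) : IsFreeLattice (fun x : X => cl (.var x)) where
  generated S hS a := by
    obtain ⟨t, rfl⟩ := cl_surj a
    induction t with
    | var x => exact hS x
    | sup s t hs ht => rw [cl_sup]; exact S.supClosed hs ht
    | inf s t hs ht => rw [cl_inf]; exact S.infClosed hs ht
  extends_map L _ f := ⟨lift f, lift_var f⟩

/-- Sanity check: the generators of a free lattice are pairwise distinct. -/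
theorem IsFreeLattice.injective {X F : Type w} [Lattice F] {ι : X → F} (h : IsFreeLattice ι) :
    Function.Injective ι := by
  intro x y hxy
  obtain ⟨g, hg⟩ := h.extends_map (ULift.{w} Prop) (fun z => ⟨z = x⟩)
  have h1 := hg x
  have h2 := hg y
  rw [← hxy, h1] at h2
  have h3 : (x = x) = (y = x) := congrArg ULift.down h2
  exact (h3 ▸ rfl : y = x).symm

/-! ### Finite sets of upper and lower witnesses -/

/-- Finitely many elements above a term. -/
def upA : Term X → Set (FL X)
  | .var x => {cl (.var x)}
  | .sup s t => infClosure (Set.image2 (· ⊔ ·) (upA s) (upA t))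
  | .inf s t => infClosure (upA s ∪ upA t)

/-- Finitely many elements below a term. -/
def dnB : Term X → Set (FL X)
  | .var x => {cl (.var x)}
  | .sup s t => supClosure (dnB s ∪ dnB t)
  | .inf s t => supClosure (Set.image2 (· ⊓ ·) (dnB s) (dnB t))

theorem upA_finite (t : Term X) : (upA t).Finite := by
  induction t with
  | var x => exact Set.finite_singleton _
  | sup s t hs ht => exact (hs.image2 _ ht).infClosure
  | inf s t hs ht => exact (hs.union ht).infClosure

theorem dnB_finite (t : Term X) : (dnB t).Finite := by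
  induction t with
  | var x => exact Set.finite_singleton _
  | sup s t hs ht => exact (hs.union ht).supClosure
  | inf s t hs ht => exact (hs.image2 _ ht).supClosure

theorem upA_infClosed (t : Term X) : InfClosed (upA t) := by
  cases t with
  | var x => exact infClosed_singleton
  | sup s t => exact infClosed_infClosure
  | inf s t => exact infClosed_infClosure

theorem dnB_supClosed (t : Term X) : SupClosed (dnB t) := by
  cases t with
  | var x => exact supClosed_singleton
  | sup s t => exact supClosed_supClosure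
  | inf s t => exact supClosed_supClosure

theorem le_of_mem_upA (t : Term X) : ∀ a ∈ upA t, cl t ≤ a := by
  induction t with
  | var x => rintro a rfl; exact le_rfl
  | sup s t hs ht =>
    have h : infClosure (Set.image2 (· ⊔ ·) (upA s) (upA t)) ⊆ Set.Ici (cl (.sup s t)) := by
      apply infClosure_min
      · rintro _ ⟨a, ha, b, hb, rfl⟩
        change cl (.sup s t) ≤ a ⊔ b
        rw [cl_sup]
        exact sup_le_sup (hs a ha) (ht b hb)
      · intro a ha b hb
        exact le_inf (Set.mem_Ici.1 ha) (Set.mem_Ici.1 hb)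
    exact fun a ha => h ha
  | inf s t hs ht =>
    have h : infClosure (upA s ∪ upA t) ⊆ Set.Ici (cl (.inf s t)) := by
      apply infClosure_min
      · rintro a (ha | ha)
        · change cl (.inf s t) ≤ a
          rw [cl_inf]
          exact inf_le_left.trans (hs a ha)
        · change cl (.inf s t) ≤ a
          rw [cl_inf]
          exact inf_le_right.trans (ht a ha)
      · intro a ha b hb
        exact le_inf (Set.mem_Ici.1 ha) (Set.mem_Ici.1 hb)
    exact fun a ha => h ha

theorem le_of_mem_dnB (t : Term X) : ∀ a ∈ dnB t, a ≤ cl t := by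
  induction t with
  | var x => rintro a rfl; exact le_rfl
  | inf s t hs ht =>
    have h : supClosure (Set.image2 (· ⊓ ·) (dnB s) (dnB t)) ⊆ Set.Iic (cl (.inf s t)) := by
      apply supClosure_min
      · rintro _ ⟨a, ha, b, hb, rfl⟩
        change a ⊓ b ≤ cl (.inf s t)
        rw [cl_inf]
        exact inf_le_inf (hs a ha) (ht b hb)
      · intro a ha b hb
        exact sup_le (Set.mem_Iic.1 ha) (Set.mem_Iic.1 hb)
    exact fun a ha => h ha
  | sup s t hs ht =>
    have h : supClosure (dnB s ∪ dnB t) ⊆ Set.Iic (cl (.sup s t)) := by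
      apply supClosure_min
      · rintro a (ha | ha)
        · change a ≤ cl (.sup s t)
          rw [cl_sup]
          exact (hs a ha).trans le_sup_left
        · change a ≤ cl (.sup s t)
          rw [cl_sup]
          exact (ht a ha).trans le_sup_right
      · intro a ha b hb
        exact sup_le (Set.mem_Iic.1 ha) (Set.mem_Iic.1 hb)
    exact fun a ha => h ha

theorem exists_mem_of_W {s t : Term X} (h : W s t) : ∃ a, a ∈ upA s ∧ a ∈ dnB t := by
  induction h with
  | var x => exact ⟨_, rfl, rfl⟩
  | @sup_le s t r _ _ h1 h2 =>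
    obtain ⟨a, ha, ha'⟩ := h1
    obtain ⟨b, hb, hb'⟩ := h2
    exact ⟨a ⊔ b, subset_infClosure ⟨a, ha, b, hb, rfl⟩, dnB_supClosed r ha' hb'⟩
  | @le_inf s t r _ _ h1 h2 =>
    obtain ⟨a, ha, ha'⟩ := h1
    obtain ⟨b, hb, hb'⟩ := h2
    exact ⟨a ⊓ b, upA_infClosed r ha hb, subset_supClosure ⟨a, ha', b, hb', rfl⟩⟩
  | inf_le_left _ h =>
    obtain ⟨a, ha, ha'⟩ := h
    exact ⟨a, subset_infClosure (Or.inl ha), ha'⟩
  | inf_le_right _ h =>
    obtain ⟨a, ha, ha'⟩ := h
    exact ⟨a, subset_infClosure (Or.inr ha), ha'⟩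
  | le_sup_left _ h =>
    obtain ⟨a, ha, ha'⟩ := h
    exact ⟨a, ha, subset_supClosure (Or.inl ha')⟩
  | le_sup_right _ h =>
    obtain ⟨a, ha, ha'⟩ := h
    exact ⟨a, ha, subset_supClosure (Or.inr ha')⟩

/-! ### Necessity -/

/-- Every free lattice embeds into the concrete one. -/
theorem toFL {X F : Type w} [Lattice F] {ι : X → F} (h : IsFreeLattice ι) :
    ∃ g : F → FL X, ∀ a b : F, a ≤ b ↔ g a ≤ g b := by
  obtain ⟨g, hg⟩ := h.extends_map (FL X) (fun x => cl (.var x))
  have key : ∀ a : F, lift ι (g a) = a := by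
    let S : Sublattice F :=
      { carrier := {a | lift ι (g a) = a}
        supClosed' := by
          intro a ha b hb
          change lift ι (g (a ⊔ b)) = a ⊔ b
          rw [map_sup, map_sup, ha, hb]
        infClosed' := by
          intro a ha b hb
          change lift ι (g (a ⊓ b)) = a ⊓ b
          rw [map_inf, map_inf, ha, hb] }
    intro a
    refine h.generated S (fun x => ?_) a
    change lift ι (g (ι x)) = ι x
    rw [hg, lift_var]
  refine ⟨g, fun a b => ⟨fun hab => OrderHomClass.mono g hab, fun hab => ?_⟩⟩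
  have := OrderHomClass.mono (lift ι) hab
  rwa [key, key] at this


theorem hasFN_FL (X : Type w) : HasFN (FL X) := by
  classical
  refine ⟨fun a => ((upA_finite (rep a)).union (dnB_finite (rep a))).toFinset, ?_⟩
  intro p q hpq
  obtain ⟨r, h1, h2⟩ := exists_mem_of_W (rep_le.2 hpq)
  refine ⟨r, by simp [h1], by simp [h2], ?_, ?_⟩
  · have := le_of_mem_upA _ _ h1
    rwa [cl_rep] at this
  · have := le_of_mem_dnB _ _ h2
    rwa [cl_rep] at this

/-! ### A well-founded skeleton of a poset with the Freese Nation property -/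

section Skeleton

variable {Q : Type w}

/-- The stages of the closure of `q` under the finite valued map `f`. -/
def stage (f : Q → Finset Q) (q : Q) : ℕ → Set Q
  | 0 => {q}
  | n + 1 => stage f q n ∪ ⋃ r ∈ stage f q n, (f r : Set Q)

theorem stage_finite (f : Q → Finset Q) (q : Q) (n : ℕ) : (stage f q n).Finite := by
  induction n with
  | zero => exact Set.finite_singleton q
  | succ n ih => exact ih.union (ih.biUnion fun r _ => (f r).finite_toSet)

/-- The closure of `q` under `f`. -/
def hull (f : Q → Finset Q) (q : Q) : Set Q := ⋃ n, stage f q n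

theorem hull_countable (f : Q → Finset Q) (q : Q) : (hull f q).Countable :=
  Set.countable_iUnion fun n => (stage_finite f q n).countable

theorem mem_hull (f : Q → Finset Q) (q : Q) : q ∈ hull f q :=
  Set.mem_iUnion.2 ⟨0, rfl⟩

theorem hull_closed (f : Q → Finset Q) (q r s : Q) (hr : r ∈ hull f q) (hs : s ∈ f r) :
    s ∈ hull f q := by
  obtain ⟨n, hn⟩ := Set.mem_iUnion.1 hr
  refine Set.mem_iUnion.2 ⟨n + 1, Or.inr ?_⟩
  exact Set.mem_iUnion₂.2 ⟨r, hn, hs⟩

theorem exists_skeleton [PartialOrder Q] (h : HasFN Q) :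
    ∃ (lt : Q → Q → Prop) (A B : Q → List Q), WellFounded lt ∧
      (∀ p q, lt p q ∨ p = q ∨ lt q p) ∧
      (∀ p, ∀ a ∈ A p, lt a p ∧ p ≤ a) ∧ (∀ p, ∀ b ∈ B p, lt b p ∧ b ≤ p) ∧
      (∀ p q, lt q p → p ≤ q → ∃ a ∈ A p, a ≤ q) ∧
      (∀ p q, lt q p → q ≤ p → ∃ b ∈ B p, q ≤ b) := by
  classical
  obtain ⟨f, hf⟩ := h
  have hwf : WellFounded (WellOrderingRel : Q → Q → Prop) := WellOrderingRel.isWellOrder.wf
  have hne : ∀ p : Q, {q | p ∈ hull f q}.Nonempty := fun p => ⟨p, mem_hull f p⟩
  let α : Q → Q := fun p => hwf.min {q | p ∈ hull f q} (hne p)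
  have hα : ∀ p, p ∈ hull f (α p) := fun p => hwf.min_mem _ (hne p)
  have hαmin : ∀ p q, p ∈ hull f q → ¬ WellOrderingRel q (α p) := fun p q hq =>
    hwf.not_lt_min {q | p ∈ hull f q} hq
  have hinj : ∀ q : Q, ∃ g : Q → ℕ, Set.InjOn g (hull f q) := fun q =>
    Set.countable_iff_exists_injOn.1 (hull_countable f q)
  choose g hg using hinj
  let n : Q → ℕ := fun p => g (α p) p
  let lt : Q → Q → Prop := InvImage (Prod.Lex WellOrderingRel (· < ·)) (fun p => (α p, n p))
  have hlt : ∀ p q, lt p q ↔ WellOrderingRel (α p) (α q) ∨ (α p = α q ∧ n p < n q) := by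
    intro p q
    exact Prod.lex_def
  have hninj : ∀ p q, α p = α q → n p = n q → p = q := by
    intro p q h1 h2
    refine hg (α p) (hα p) (h1 ▸ hα q) ?_
    have : n q = g (α p) q := by rw [h1]
    rw [← this, ← h2]
  have htri : ∀ p q, lt p q ∨ p = q ∨ lt q p := by
    intro p q
    rcases trichotomous_of WellOrderingRel (α p) (α q) with h | h | h
    · exact Or.inl ((hlt p q).2 (Or.inl h))
    · rcases lt_trichotomy (n p) (n q) with h' | h' | h'
      · exact Or.inl ((hlt p q).2 (Or.inr ⟨h, h'⟩))
      · exact Or.inr (Or.inl (hninj p q h h'))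
      · exact Or.inr (Or.inr ((hlt q p).2 (Or.inr ⟨h.symm, h'⟩)))
    · exact Or.inr (Or.inr ((hlt q p).2 (Or.inl h)))
  have hfin : ∀ p : Q, {r : Q | r ∈ f p ∨ (α r = α p ∧ n r < n p)}.Finite := by
    intro p
    have h1 : {r : Q | α r = α p ∧ n r < n p}.Finite := by
      refine Set.Finite.of_finite_image (f := n) ((Set.finite_Iio (n p)).subset ?_) ?_
      · rintro _ ⟨r, hr, rfl⟩
        exact hr.2
      · intro r hr s hs hrs
        exact hninj r s (hr.1.trans hs.1.symm) hrs
    exact ((f p).finite_toSet.union h1).subset (fun r hr => hr)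
  have hint : ∀ p q r, lt q p → r ∈ f p → r ∈ f q → WellOrderingRel (α q) (α p) →
      lt r p := by
    intro p q r _ _ hrq hqp
    rw [hlt]
    left
    have h1 : ¬ WellOrderingRel (α q) (α r) := hαmin r (α q) (hull_closed f _ q r (hα q) hrq)
    rcases trichotomous_of WellOrderingRel (α r) (α q) with h | h | h
    · exact _root_.trans h hqp
    · rw [h]; exact hqp
    · exact absurd h h1
  have hA : ∀ p : Q, ∃ l : List Q, ∀ r, r ∈ l ↔
      (r ∈ f p ∨ (α r = α p ∧ n r < n p)) ∧ lt r p ∧ p ≤ r := by
    intro p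
    have := (hfin p).subset (t := {r | (r ∈ f p ∨ (α r = α p ∧ n r < n p)) ∧ lt r p ∧ p ≤ r})
      (fun r hr => hr.1)
    exact ⟨this.toFinset.toList, fun r => by simp⟩
  have hB : ∀ p : Q, ∃ l : List Q, ∀ r, r ∈ l ↔
      (r ∈ f p ∨ (α r = α p ∧ n r < n p)) ∧ lt r p ∧ r ≤ p := by
    intro p
    have := (hfin p).subset (t := {r | (r ∈ f p ∨ (α r = α p ∧ n r < n p)) ∧ lt r p ∧ r ≤ p})
      (fun r hr => hr.1)
    exact ⟨this.toFinset.toList, fun r => by simp⟩
  choose A hA using hA
  choose B hB using hB
  refine ⟨lt, A, B, InvImage.wf _ (WellFounded.prod_lex hwf Nat.lt_wfRel.wf), htri,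
    fun p a ha => ((hA p a).1 ha).2, fun p b hb => ((hB p b).1 hb).2, ?_, ?_⟩
  · intro p q hqp hpq
    rcases (hlt q p).1 hqp with h | h
    · obtain ⟨r, h1, h2, h3, h4⟩ := hf p q hpq
      exact ⟨r, (hA p r).2 ⟨Or.inl h1, hint p q r hqp h1 h2 h, h3⟩, h4⟩
    · exact ⟨q, (hA p q).2 ⟨Or.inr h, hqp, hpq⟩, le_rfl⟩
  · intro p q hqp hpq
    rcases (hlt q p).1 hqp with h | h
    · obtain ⟨r, h1, h2, h3, h4⟩ := hf q p hpq
      exact ⟨r, (hB p r).2 ⟨Or.inl h2, hint p q r hqp h2 h1 h, h4⟩, h3⟩
    · exact ⟨q, (hB p q).2 ⟨Or.inr h, hqp, hpq⟩, le_rfl⟩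

end Skeleton

/-! ### Finite meets and joins -/

/-- The meet of `a` and of all members of the list `l`. -/
def meetL {L : Type v} [Lattice L] (a : L) (l : List L) : L := l.foldr (· ⊓ ·) a

/-- The join of `a` and of all members of the list `l`. -/
def joinL {L : Type v} [Lattice L] (a : L) (l : List L) : L := l.foldr (· ⊔ ·) a

theorem meetL_le_mem {L : Type v} [Lattice L] (a : L) (l : List L) : ∀ b ∈ l, meetL a l ≤ b := by
  induction l with
  | nil => intro b hb; cases hb
  | cons c l ih =>
    intro b hb
    rcases List.mem_cons.1 hb with rfl | hb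
    · exact inf_le_left
    · exact inf_le_right.trans (ih b hb)

theorem mem_le_joinL {L : Type v} [Lattice L] (a : L) (l : List L) : ∀ b ∈ l, b ≤ joinL a l := by
  induction l with
  | nil => intro b hb; cases hb
  | cons c l ih =>
    intro b hb
    rcases List.mem_cons.1 hb with rfl | hb
    · exact le_sup_left
    · exact (ih b hb).trans le_sup_right


theorem le_meetL {L : Type v} [Lattice L] {a c : L} {l : List L} (h : c ≤ a)
    (hl : ∀ b ∈ l, c ≤ b) : c ≤ meetL a l := by
  induction l with
  | nil => exact h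
  | cons d l ih =>
    exact le_inf (hl d (by simp)) (ih fun b hb => hl b (by simp [hb]))

theorem joinL_le {L : Type v} [Lattice L] {a c : L} {l : List L} (h : a ≤ c)
    (hl : ∀ b ∈ l, b ≤ c) : joinL a l ≤ c := by
  induction l with
  | nil => exact h
  | cons d l ih =>
    exact sup_le (hl d (by simp)) (ih fun b hb => hl b (by simp [hb]))

theorem base_le_joinL {L : Type v} [Lattice L] (a : L) (l : List L) : a ≤ joinL a l := by
  induction l with
  | nil => exact le_rfl
  | cons d l ih => exact ih.trans le_sup_right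

theorem meetL_le_base {L : Type v} [Lattice L] (a : L) (l : List L) : meetL a l ≤ a := by
  induction l with
  | nil => exact le_rfl
  | cons d l ih => exact inf_le_right.trans ih

/-- Evaluation of elements of the free lattice in the two element chain. -/
noncomputable def evB {X : Type w} (ν : X → Bool) : LatticeHom (FL X) Bool := lift ν

theorem evB_continuous {X : Type w} (a : FL X) : Continuous (fun ν : X → Bool => evB ν a) := by
  change Continuous (fun ν : X → Bool => ev ν (rep a))
  generalize rep a = t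
  induction t with
  | var x => exact continuous_apply x
  | sup s t hs ht =>
    exact (continuous_of_discreteTopology (f := fun p : Bool × Bool => p.1 ⊔ p.2)).comp
      (hs.prodMk ht)
  | inf s t hs ht =>
    exact (continuous_of_discreteTopology (f := fun p : Bool × Bool => p.1 ⊓ p.2)).comp
      (hs.prodMk ht)

theorem hom_meetL_le {L : Type v} [Lattice L] (h : LatticeHom L Bool) (a : L) (l : List L)
    (c : Bool) (ha : h a = c) (hl : ∀ b ∈ l, c ≤ h b) : h (meetL a l) = c := by
  induction l with
  | nil => exact ha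
  | cons d l ih =>
    have h1 : h (meetL a (d :: l)) = h d ⊓ h (meetL a l) := by
      change h (d ⊓ meetL a l) = _
      rw [map_inf]
    rw [h1, ih fun b hb => hl b (by simp [hb])]
    exact inf_eq_right.2 (hl d (by simp))

theorem hom_joinL_le {L : Type v} [Lattice L] (h : LatticeHom L Bool) (a : L) (l : List L)
    (c : Bool) (ha : h a = c) (hl : ∀ b ∈ l, h b ≤ c) : h (joinL a l) = c := by
  induction l with
  | nil => exact ha
  | cons d l ih =>
    have h1 : h (joinL a (d :: l)) = h d ⊔ h (joinL a l) := by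
      change h (d ⊔ joinL a l) = _
      rw [map_sup]
    rw [h1, ih fun b hb => hl b (by simp [hb])]
    exact sup_eq_right.2 (hl d (by simp))

/-- The key lemma: an order preserving map from a poset with the Freese Nation property into the
free lattice over its underlying set, which is a section for all monotone valuations. -/
theorem exists_section {Q : Type w} [PartialOrder Q] (h : HasFN Q) :
    ∃ ψ : Q → FL Q, (∀ p q, p ≤ q → ψ p ≤ ψ q) ∧
      ∀ ν : Q → Bool, Monotone ν → ∀ z, evB ν (ψ z) = ν z := by
  obtain ⟨lt, A, B, hwf, htri, hA, hB, hgA, hgB⟩ := exists_skeleton h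
  let step : ∀ z : Q, (∀ y : Q, lt y z → FL Q) → FL Q := fun z ih =>
    joinL (meetL (cl (.var z)) ((A z).attach.map fun a => ih a.1 (hA z a.1 a.2).1))
      ((B z).attach.map fun b => ih b.1 (hB z b.1 b.2).1)
  let ψ : Q → FL Q := hwf.fix step
  have hψ : ∀ z, ψ z = joinL (meetL (cl (.var z)) ((A z).map ψ)) ((B z).map ψ) := by
    intro z
    have h1 : ψ z = step z (fun y _ => ψ y) := hwf.fix_eq step z
    rw [h1]
    change joinL (meetL (cl (.var z)) ((A z).attach.map fun a => ψ a.1))
      ((B z).attach.map fun b => ψ b.1) = _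
    rw [List.attach_map_val, List.attach_map_val]
  have hBle : ∀ z, ∀ b ∈ B z, ψ b ≤ ψ z := by
    intro z b hb
    rw [hψ z]
    exact mem_le_joinL _ _ _ (List.mem_map.2 ⟨b, hb, rfl⟩)
  have hM : ∀ z, ∀ y, lt y z → (y ≤ z → ψ y ≤ ψ z) ∧ (z ≤ y → ψ z ≤ ψ y) := by
    intro z
    induction z using hwf.induction with
    | _ z ih =>
      have hmono : ∀ c d, lt c z → lt d z → c ≤ d → ψ c ≤ ψ d := by
        intro c d hc hd hcd
        rcases htri c d with h | h | h
        · exact (ih d hd c h).1 hcd
        · rw [h]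
        · exact (ih c hc d h).2 hcd
      intro y hy
      constructor
      · intro hyz
        obtain ⟨b, hb, hyb⟩ := hgB z y hy hyz
        exact (hmono y b hy (hB z b hb).1 hyb).trans (hBle z b hb)
      · intro hzy
        obtain ⟨a, ha, hay⟩ := hgA z y hy hzy
        have h1 : ψ z ≤ ψ a := by
          rw [hψ z]
          apply joinL_le
          · exact meetL_le_mem _ _ _ (List.mem_map.2 ⟨a, ha, rfl⟩)
          · intro c hc
            obtain ⟨b, hb, rfl⟩ := List.mem_map.1 hc
            exact hmono b a (hB z b hb).1 (hA z a ha).1 ((hB z b hb).2.trans (hA z a ha).2)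
        exact h1.trans (hmono a y (hA z a ha).1 hy hay)
  refine ⟨ψ, ?_, ?_⟩
  · intro p q hpq
    rcases htri p q with h | h | h
    · exact (hM q p h).1 hpq
    · rw [h]
    · exact (hM p q h).2 hpq
  · intro ν hν z
    induction z using hwf.induction with
    | _ z ih =>
      rw [hψ z]
      apply hom_joinL_le
      · apply hom_meetL_le
        · exact lift_var ν z
        · intro c hc
          obtain ⟨a, ha, rfl⟩ := List.mem_map.1 hc
          rw [ih a (hA z a ha).1]
          exact hν (hA z a ha).2
      · intro c hc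
        obtain ⟨b, hb, rfl⟩ := List.mem_map.1 hc
        rw [ih b (hB z b hb).1]
        exact hν (hB z b hb).2

/-! ### The equivalences -/

theorem fn_of_free {P : Type u} [PartialOrder P] (h : EmbedsInFreeLattice.{u, w} P) :
    EmbedsInFN.{u, w} P := by
  obtain ⟨X, F, _, ι, hF, φ, hφ⟩ := h
  obtain ⟨g, hg⟩ := toFL hF
  exact ⟨FL X, inferInstance, hasFN_FL X, fun p => g (φ p), fun p q => by rw [← hg, ← hφ]⟩

theorem free_of_fn {P : Type u} [PartialOrder P] (h : EmbedsInFN.{u, w} P) :
    EmbedsInFreeLattice.{u, w} P := by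
  classical
  obtain ⟨Q, _, hQ, φ, hφ⟩ := h
  obtain ⟨ψ, hψ, hν⟩ := exists_section hQ
  refine ⟨Q, FL Q, inferInstance, fun x => cl (.var x), isFree_FL Q, fun p => ψ (φ p), ?_⟩
  intro p q
  rw [hφ]
  refine ⟨hψ _ _, fun hle => ?_⟩
  let ν : Q → Bool := fun z => decide (φ p ≤ z)
  have hmono : Monotone ν := by
    intro a b hab
    rw [Bool.le_iff_imp]
    intro ha
    exact decide_eq_true ((of_decide_eq_true ha).trans hab)
  have h1 := OrderHomClass.mono (evB ν) hle
  rw [hν ν hmono, hν ν hmono, Bool.le_iff_imp] at h1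
  exact of_decide_eq_true (h1 (decide_eq_true le_rfl))

theorem dyadic_of_fn {P : Type u} [PartialOrder P] (h : EmbedsInFN.{u, w} P) :
    UpSpaceIsDyadic.{u, w} P := by
  classical
  obtain ⟨Q, _, hQ, φ, hφ⟩ := h
  obtain ⟨ψ, hψ, hν⟩ := exists_section hQ
  refine ⟨Q, fun ν => ⟨fun p => evB ν (ψ (φ p)), ?_⟩, ?_, ?_⟩
  · intro p q hpq
    exact OrderHomClass.mono (evB ν) (hψ _ _ ((hφ p q).1 hpq))
  · refine Continuous.subtype_mk (continuous_pi fun p => ?_) _
    exact evB_continuous _
  · rintro ⟨F, hF⟩
    let ν : Q → Bool := fun z => decide (∃ p, F p = true ∧ φ p ≤ z)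
    have hmono : Monotone ν := by
      intro a b hab
      rw [Bool.le_iff_imp]
      intro ha
      obtain ⟨p, hp, hpa⟩ := of_decide_eq_true ha
      exact decide_eq_true ⟨p, hp, hpa.trans hab⟩
    refine ⟨ν, Subtype.ext (funext fun q => ?_)⟩
    change evB ν (ψ (φ q)) = F q
    rw [hν ν hmono, Bool.eq_iff_iff]
    constructor
    · intro h
      obtain ⟨p, hp, hpq⟩ := of_decide_eq_true h
      exact Bool.le_iff_imp.1 (hF ((hφ p q).2 hpq)) hp
    · intro h
      exact decide_eq_true ⟨q, h, le_rfl⟩

theorem clopen_of_dyadic {P : Type u} [PartialOrder P] (h : UpSpaceIsDyadic.{u, w} P) :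
    IsClopenFamily.{u, w} P := by
  classical
  obtain ⟨I, π, hπ, hsurj⟩ := h
  refine ⟨I, fun p => {x | (π x).1 p = true}, ?_, ?_⟩
  · intro p
    have h1 : Continuous (fun x => (π x).1 p) :=
      (continuous_apply p).comp (continuous_subtype_val.comp hπ)
    exact (isClopen_discrete ({true} : Set Bool)).preimage h1
  · intro p q
    constructor
    · intro hpq x hx
      exact Bool.le_iff_imp.1 ((π x).2 hpq) hx
    · intro hsub
      let F : P → Bool := fun z => decide (p ≤ z)
      have hF : Monotone F := by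
        intro a b hab
        rw [Bool.le_iff_imp]
        intro ha
        exact decide_eq_true ((of_decide_eq_true ha).trans hab)
      obtain ⟨x, hx⟩ := hsurj ⟨F, hF⟩
      have hxF : ∀ z, (π x).1 z = F z := fun z => by rw [hx]
      have h1 : x ∈ {x | (π x).1 p = true} := by
        change (π x).1 p = true
        rw [hxF]
        exact decide_eq_true le_rfl
      have h2 : (π x).1 q = true := hsub h1
      rw [hxF] at h2
      exact of_decide_eq_true h2

section Support

variable {I : Type w}

/-- The set `c` depends only on the coordinates in `s`. -/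
def DepOn (c : Set (I → Bool)) (s : Finset I) : Prop :=
  ∀ x y : I → Bool, (∀ i ∈ s, x i = y i) → x ∈ c → y ∈ c

theorem exists_depOn {c : Set (I → Bool)} (hc : IsClopen c) : ∃ s, DepOn c s := by
  classical
  have hloc : ∀ x : I → Bool, ∃ s : Finset I, ∀ y, (∀ i ∈ s, y i = x i) → (y ∈ c ↔ x ∈ c) := by
    intro x
    have key : ∀ o : Set (I → Bool), IsOpen o → x ∈ o →
        ∃ s : Finset I, ∀ y, (∀ i ∈ s, y i = x i) → y ∈ o := by
      intro o ho hx
      obtain ⟨s, t, hst, hsub⟩ := isOpen_pi_iff.1 ho x hx
      refine ⟨s, fun y hy => hsub fun i hi => ?_⟩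
      rw [hy i hi]
      exact (hst i hi).2
    by_cases hx : x ∈ c
    · obtain ⟨s, hs⟩ := key c hc.isOpen hx
      exact ⟨s, fun y hy => ⟨fun _ => hx, fun _ => hs y hy⟩⟩
    · obtain ⟨s, hs⟩ := key cᶜ hc.compl.isOpen hx
      exact ⟨s, fun y hy => ⟨fun h => absurd h (hs y hy), fun h => absurd h hx⟩⟩
  choose s hs using hloc
  obtain ⟨t, _, ht⟩ := isCompact_univ.elim_nhds_subcover
    (fun x : I → Bool => {y | ∀ i ∈ s x, y i = x i}) (by
      intro x _
      refine IsOpen.mem_nhds ?_ (fun i _ => rfl)
      have : {y : I → Bool | ∀ i ∈ s x, y i = x i} =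
          ⋂ i ∈ s x, (fun y : I → Bool => y i) ⁻¹' {x i} := by
        ext y; simp
      rw [this]
      exact isOpen_biInter_finset fun i _ => (isOpen_discrete _).preimage (continuous_apply i))
  refine ⟨t.biUnion s, fun x y hxy hx => ?_⟩
  obtain ⟨z, hz, hxz⟩ := Set.mem_iUnion₂.1 (ht (Set.mem_univ x))
  have hyz : ∀ i ∈ s z, y i = z i := fun i hi => by
    rw [← hxy i (Finset.mem_biUnion.2 ⟨z, hz, hi⟩)]
    exact hxz i hi
  exact (hs z y hyz).2 ((hs z x hxz).1 hx)

/-- Subsets of the cube with finite support. -/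
abbrev FinSup (I : Type w) : Type w := {c : Set (I → Bool) // ∃ s, DepOn c s}

theorem finite_depOn (s : Finset I) : {c : FinSup I | DepOn c.1 s}.Finite := by
  classical
  let G : FinSup I → Set (s → Bool) := fun c => {u | ∃ x ∈ c.1, ∀ i : s, x i = u i}
  refine Set.Finite.of_finite_image (f := G) (Set.toFinite _) ?_
  intro c hc d hd hcd
  have key : ∀ c d : FinSup I, DepOn d.1 s → G c = G d → c.1 ⊆ d.1 := by
    intro c d hd hcd x hx
    have h1 : (fun i : s => x i) ∈ G c := ⟨x, hx, fun i => rfl⟩
    rw [hcd] at h1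
    obtain ⟨y, hy, hyx⟩ := h1
    exact hd y x (fun i hi => hyx ⟨i, hi⟩) hy
  exact Subtype.ext (Set.Subset.antisymm (key c d hd hcd) (key d c hc hcd.symm))

theorem hasFN_finSup (I : Type w) : HasFN (FinSup I) := by
  classical
  choose s hs using fun c : FinSup I => c.2
  refine ⟨fun c => (finite_depOn (s c)).toFinset, ?_⟩
  intro c d hcd
  let e : Set (I → Bool) := {x | ∃ y ∈ c.1, ∀ i, i ∈ s c → i ∈ s d → x i = y i}
  have he : ∀ t : Finset I, (∀ i, i ∈ s c → i ∈ s d → i ∈ t) → DepOn e t := by
    rintro t ht x z hxz ⟨y, hy, hxy⟩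
    exact ⟨y, hy, fun i h1 h2 => by rw [← hxz i (ht i h1 h2)]; exact hxy i h1 h2⟩
  have hec : DepOn e (s c) := he _ fun i h1 _ => h1
  have hed : DepOn e (s d) := he _ fun i _ h2 => h2
  refine ⟨⟨e, s c, hec⟩, by simpa using hec, by simpa using hed, ?_, ?_⟩
  · intro x hx
    exact ⟨x, hx, fun i _ _ => rfl⟩
  · rintro x ⟨y, hy, hxy⟩
    let z : I → Bool := fun i => if i ∈ s c then y i else x i
    have hz1 : z ∈ c.1 := hs c y z (fun i hi => by simp [z, hi]) hy
    have hz2 : z ∈ d.1 := hcd hz1
    refine hs d z x (fun i hi => ?_) hz2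
    by_cases hic : i ∈ s c
    · simp only [z, hic, if_true]
      exact (hxy i hic hi).symm
    · simp [z, hic]

end Support

theorem fn_of_clopen {P : Type u} [PartialOrder P] (h : IsClopenFamily.{u, w} P) :
    EmbedsInFN.{u, w} P := by
  obtain ⟨I, c, hc, hcc⟩ := h
  exact ⟨FinSup I, inferInstance, hasFN_finSup I, fun p => ⟨c p, exists_depOn (hc p)⟩, hcc⟩

/-- **Characterisation of the posets that embed into a free lattice.** For every poset `P` the
following are equivalent: `P` embeds into a free lattice; the space of up-sets of `P` is dyadic;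
`P` is isomorphic to a family of clopen subsets of a Cantor cube ordered by inclusion; `P` embeds
into a poset with the Freese Nation property. -/
theorem result (P : Type u) [PartialOrder P] :
    List.TFAE [EmbedsInFreeLattice.{u, w} P, UpSpaceIsDyadic.{u, w} P, IsClopenFamily.{u, w} P,
      EmbedsInFN.{u, w} P] := by
  tfae_have 1 → 4 := fn_of_free
  tfae_have 4 → 1 := free_of_fn
  tfae_have 4 → 2 := dyadic_of_fn
  tfae_have 2 → 3 := clopen_of_dyadic
  tfae_have 3 → 4 := fn_of_clopen
  tfae_finish

end Pool.Agent.Results.MP_65a0e0_al.DyadicUpSpace
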